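import Pool.Agent.Helper70.Isg.Goals2

/-!
# Locality and equivariance of the map `Psi` (packet PSI for MP_600500_pr)
-/

open MeasureTheory Filter Topology

noncomputable section

namespace Pool.Agent.Helper32.Isg

open Pool.Agent.Helper70.Isg

variable {d : ℕ}

theorem lf_congr (M : ℕ) (c c' : ℕ → Fin 3) : ∀ m : ℕ, (∀ i < m, c i = c' i) →
    lf M c m = lf M c' m
  | 0, _ => rfl
  | m + 1, h => by
    have ih := lf_congr M c c' m fun i hi => h i (Nat.lt_succ_of_lt hi)
    simp only [lf]
    rw [ih, h m (Nat.lt_succ_self m)]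

theorem lf_absorb (M : ℕ) (c : ℕ → Fin 3) (m : ℕ) (hm : (lf M c m).1 = 0) :
    ∀ j : ℕ, lf M c (m + j) = lf M c m
  | 0 => rfl
  | j + 1 => by
    have ih := lf_absorb M c m hm j
    rw [← Nat.add_assoc]
    simp only [lf]
    rw [ih, hm]
    simp only [lt_self_iff_false, and_false, if_false, if_true]
    exact Prod.ext hm.symm rfl

theorem Tc_eq (M : ℕ) (c : ℕ → Fin 3) (m : ℕ) (hm : (lf M c m).1 = 0) :
    Tc M c = (lf M c m).2 := by
  classical
  have h : ∃ n, (lf M c n).1 = 0 := ⟨m, hm⟩
  unfold Tc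
  rw [dif_pos h]
  have h1 : Nat.find h ≤ m := Nat.find_min' h hm
  obtain ⟨j, hj⟩ := Nat.exists_eq_add_of_le h1
  have h2 := lf_absorb M c (Nat.find h) (Nat.find_spec h) j
  rw [← hj] at h2
  rw [h2]

theorem l1_single (j : ℕ) : l1 (Pi.single 0 (j : ℤ) : Site (d + 1)) = j := by
  unfold l1
  rw [Finset.sum_eq_single 0]
  · simp
  · intro i _ hi
    simp [Pi.single_eq_of_ne hi]
  · simp

/-- Packet PSI. -/
theorem psi_packet : S_PSI := by
  intro d L
  constructor
  · intro u y
    funext v
    have h : strm (shift u y) v = strm y (v + u) := by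
      funext n
      simp only [strm, shift]
      rw [add_right_comm]
    simp only [Psi, shift] at h ⊢
    rw [h]
  · intro y y' v n h0 hy
    have hs : ∀ i < 6 * n, strm y v i = strm y' v i := by
      intro i hi
      simp only [strm]
      rw [hy]
      rw [add_sub_cancel_left, l1_single]
      omega
    have h1 := lf_congr 6 (strm y v) (strm y' v) (6 * n) hs
    have h0' : (lf 6 (strm y' v) (6 * n)).1 = 0 := by rw [← h1]; exact h0
    simp only [Psi]
    rw [Tc_eq 6 _ _ h0, Tc_eq 6 _ _ h0', ← h1, hy v (by simp [l1])]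

end Pool.Agent.Helper32.Isg
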