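import Pool.Agent.Helper70.Isg.Goals2

/-!
# Strong spatial mixing of the Ising model (packet SSM for MP_600500_pr)
-/

open MeasureTheory Filter Topology

noncomputable section

namespace Pool.Agent.Helper32.Isg

open Pool.Agent.Helper70.Isg

variable {d : ℕ}

/-- The energy in a large volume is the energy in a smaller volume plus a term that depends only
on the spins outside the smaller volume. -/
theorem enrg_decomp (hsymm : ∀ u v : Site d, v ∈ nbrs u ↔ u ∈ nbrs v)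
    (Δ Λ : Finset (Site d)) (hΔ : Δ ⊆ Λ) (σ : Cfg d) :
    enrg Λ σ = enrg Δ σ + ∑ u ∈ Λ \ Δ, ∑ v ∈ (nbrs u).filter (· ∉ Δ),
      (if v ∈ Λ then 1 / 2 else 1) * (sg (σ u) * sg (σ v)) := by
  have h1 : enrg Λ σ = (∑ u ∈ Λ \ Δ, ∑ v ∈ nbrs u,
      (if v ∈ Λ then 1 / 2 else 1) * (sg (σ u) * sg (σ v))) +
      ∑ u ∈ Δ, ∑ v ∈ nbrs u, (if v ∈ Λ then 1 / 2 else 1) * (sg (σ u) * sg (σ v)) := by
    unfold enrg
    rw [Finset.sum_sdiff hΔ]
  have h2 : (∑ u ∈ Λ \ Δ, ∑ v ∈ nbrs u,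
      (if v ∈ Λ then 1 / 2 else 1) * (sg (σ u) * sg (σ v))) =
      (∑ u ∈ Λ \ Δ, ∑ v ∈ Δ, if v ∈ nbrs u then 1 / 2 * (sg (σ u) * sg (σ v)) else 0) +
      ∑ u ∈ Λ \ Δ, ∑ v ∈ (nbrs u).filter (· ∉ Δ),
      (if v ∈ Λ then 1 / 2 else 1) * (sg (σ u) * sg (σ v)) := by
    rw [← Finset.sum_add_distrib]
    refine Finset.sum_congr rfl fun u _ => ?_
    rw [← Finset.sum_filter_add_sum_filter_not (nbrs u) (· ∈ Δ)]
    congr 1
    rw [← Finset.sum_filter]
    have : (nbrs u).filter (· ∈ Δ) = Δ.filter (· ∈ nbrs u) := by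
      ext v; simp [and_comm]
    rw [this]
    refine Finset.sum_congr rfl fun v hv => ?_
    rw [Finset.mem_filter] at hv
    rw [if_pos (hΔ hv.1)]
  have h3 : (∑ u ∈ Δ, ∑ v ∈ nbrs u, (if v ∈ Λ then 1 / 2 else 1) * (sg (σ u) * sg (σ v))) =
      enrg Δ σ - ∑ u ∈ Δ, ∑ v ∈ Λ \ Δ,
        if v ∈ nbrs u then 1 / 2 * (sg (σ u) * sg (σ v)) else 0 := by
    unfold enrg
    rw [← Finset.sum_sub_distrib]
    refine Finset.sum_congr rfl fun u _ => ?_
    rw [← Finset.sum_filter]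
    have : (Λ \ Δ).filter (· ∈ nbrs u) = (nbrs u).filter (· ∈ Λ \ Δ) := by
      ext v; simp [and_comm]
    rw [this, Finset.sum_filter, ← Finset.sum_sub_distrib]
    refine Finset.sum_congr rfl fun v _ => ?_
    by_cases hv : v ∈ Λ
    · by_cases hv' : v ∈ Δ
      · simp [hv, hv']
      · simp only [hv, hv', if_true, if_false, Finset.mem_sdiff, not_false_eq_true, and_self]
        ring
    · have hv' : v ∉ Δ := fun h => hv (hΔ h)
      simp [hv, hv']
  have h4 : (∑ u ∈ Λ \ Δ, ∑ v ∈ Δ, if v ∈ nbrs u then 1 / 2 * (sg (σ u) * sg (σ v)) else 0) =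
      ∑ u ∈ Δ, ∑ v ∈ Λ \ Δ, if v ∈ nbrs u then 1 / 2 * (sg (σ u) * sg (σ v)) else 0 := by
    rw [Finset.sum_comm]
    refine Finset.sum_congr rfl fun u _ => Finset.sum_congr rfl fun v _ => ?_
    by_cases h : v ∈ nbrs u
    · rw [if_pos h, if_pos ((hsymm u v).1 h)]
      ring
    · rw [if_neg h, if_neg fun h' => h ((hsymm u v).2 h')]
  rw [h1, h2, h3, h4]
  ring

/-- Matrix form of the energy. -/
theorem gE_eq (β : ℝ) (Λ : Finset (Site d)) (η : Cfg d) (τ : Λ → Bool) :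
    gE (latJ β Λ) (latH β Λ η) τ = β * enrg Λ (glue Λ τ η) := by
  have hg1 : ∀ u : Λ, glue Λ τ η u = τ u := fun u => by simp [glue]
  have hg2 : ∀ u : Site d, u ∉ Λ → glue Λ τ η u = η u := fun u hu => by simp [glue, hu]
  unfold gE enrg
  rw [← Finset.sum_add_distrib, Finset.mul_sum, ← Finset.sum_coe_sort Λ]
  refine Finset.sum_congr rfl fun u _ => ?_
  rw [← Finset.sum_filter_add_sum_filter_not (nbrs (u : Site d)) (· ∈ Λ), mul_add]
  congr 1
  · have h1 : (∑ v ∈ (nbrs (u : Site d)).filter (· ∈ Λ), (if v ∈ Λ then 1 / 2 else 1) *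
        (sg (glue Λ τ η u) * sg (glue Λ τ η v))) =
        ∑ v ∈ Λ, if v ∈ nbrs (u : Site d) then
          1 / 2 * (sg (glue Λ τ η u) * sg (glue Λ τ η v)) else 0 := by
      rw [← Finset.sum_filter]
      have : (nbrs (u : Site d)).filter (· ∈ Λ) = Λ.filter (· ∈ nbrs (u : Site d)) := by
        ext v; simp [and_comm]
      rw [this]
      refine Finset.sum_congr rfl fun v hv => ?_
      rw [Finset.mem_filter] at hv
      rw [if_pos hv.1]
    rw [h1, Finset.mul_sum, ← Finset.sum_coe_sort Λ]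
    refine Finset.sum_congr rfl fun v _ => ?_
    rw [hg1, hg1]
    unfold latJ
    split_ifs <;> ring
  · unfold latH
    rw [Finset.mul_sum, Finset.sum_mul, Finset.mul_sum]
    refine Finset.sum_congr rfl fun v hv => ?_
    rw [Finset.mem_filter] at hv
    rw [if_neg hv.2, hg1, hg2 v hv.2]
    ring

theorem sg_mul_self_le (a b : Bool) : sg a * sg b - 1 = if a = b then 0 else -2 := by
  cases a <;> cases b <;> norm_num [sg]

/-- A field of strength `H` in the direction of `a` on the sites of `Q`. -/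
def hs (Λ Q : Finset (Site d)) (a : Cfg d) (H : ℝ) : Λ → ℝ :=
  fun u => if (u : Site d) ∈ Q then H * sg (a u) else 0

theorem gE_add {V : Type} [Fintype V] (J : V → V → ℝ) (h K : V → ℝ) (s : V → Bool) :
    gE J (h + K) s = gE J K s + ∑ u, h u * sg (s u) := by
  have h1 : ∑ u, (h + K) u * sg (s u) = (∑ u, K u * sg (s u)) + ∑ u, h u * sg (s u) := by
    rw [← Finset.sum_add_distrib]
    refine Finset.sum_congr rfl fun u _ => ?_
    rw [Pi.add_apply]
    ring
  unfold gE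
  rw [h1]
  ring

theorem lim_weight (β : ℝ) (Λ Q : Finset (Site d)) (a : Cfg d) (K : Λ → ℝ) (s : Λ → Bool) :
    Tendsto (fun H : ℝ => Real.exp (gE (latJ β Λ) (hs Λ Q a H + K) s) *
      Real.exp (-(H * ∑ u : Λ, if (u : Site d) ∈ Q then (1 : ℝ) else 0))) atTop
      (𝓝 (if ∀ u : Λ, (u : Site d) ∈ Q → s u = a u then Real.exp (gE (latJ β Λ) K s) else 0)) := by
  have key : ∀ H : ℝ, Real.exp (gE (latJ β Λ) (hs Λ Q a H + K) s) *
      Real.exp (-(H * ∑ u : Λ, if (u : Site d) ∈ Q then (1 : ℝ) else 0)) =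
      Real.exp (gE (latJ β Λ) K s) *
      Real.exp (H * ∑ u : Λ, if (u : Site d) ∈ Q then sg (a u) * sg (s u) - 1 else 0) := by
    intro H
    rw [← Real.exp_add, ← Real.exp_add]
    congr 1
    rw [gE_add]
    have : (∑ u : Λ, if (u : Site d) ∈ Q then sg (a u) * sg (s u) - 1 else 0) =
        (∑ u : Λ, if (u : Site d) ∈ Q then sg (a u) * sg (s u) else 0) -
        ∑ u : Λ, if (u : Site d) ∈ Q then (1 : ℝ) else 0 := by
      rw [← Finset.sum_sub_distrib]
      refine Finset.sum_congr rfl fun u _ => ?_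
      split_ifs <;> ring
    rw [this, mul_sub]
    have h2 : ∑ u : Λ, hs Λ Q a H u * sg (s u) =
        H * ∑ u : Λ, if (u : Site d) ∈ Q then sg (a u) * sg (s u) else 0 := by
      rw [Finset.mul_sum]
      refine Finset.sum_congr rfl fun u _ => ?_
      unfold hs
      split_ifs <;> ring
    rw [h2]
    ring
  simp_rw [key]
  by_cases hP : ∀ u : Λ, (u : Site d) ∈ Q → s u = a u
  · rw [if_pos hP]
    have h0 : (∑ u : Λ, if (u : Site d) ∈ Q then sg (a u) * sg (s u) - 1 else 0) = 0 := by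
      refine Finset.sum_eq_zero fun u _ => ?_
      split_ifs with hu
      · rw [sg_mul_self_le, if_pos (hP u hu).symm]
      · rfl
    rw [h0]
    simp
  · rw [if_neg hP]
    have hc : (∑ u : Λ, if (u : Site d) ∈ Q then sg (a u) * sg (s u) - 1 else 0) < 0 := by
      push Not at hP
      obtain ⟨u, hu, hne⟩ := hP
      refine Finset.sum_neg' (fun w _ => ?_) ⟨u, Finset.mem_univ _, ?_⟩
      · split_ifs
        · rw [sg_mul_self_le]
          split_ifs <;> norm_num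
        · exact le_refl _
      · rw [if_pos hu, sg_mul_self_le, if_neg (Ne.symm hne)]
        norm_num
    have h3 : Tendsto (fun H : ℝ => Real.exp (H *
        ∑ u : Λ, if (u : Site d) ∈ Q then sg (a u) * sg (s u) - 1 else 0)) atTop (𝓝 0) :=
      Real.tendsto_exp_atBot.comp (tendsto_id.atTop_mul_const_of_neg hc)
    simpa using h3.const_mul (Real.exp (gE (latJ β Λ) K s))

/-- Reindexing of the sums. -/
theorem sum_pinned (hsymm : ∀ u v : Site d, v ∈ nbrs u ↔ u ∈ nbrs v)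
    (β : ℝ) (Λ Q : Finset (Site d)) (a : Cfg d) (b : Bool) (F : Cfg d → ℝ) :
    (∑ s : Λ → Bool, F (glue Λ s (fun _ => b)) *
      (if ∀ u : Λ, (u : Site d) ∈ Q → s u = a u then
        Real.exp (gE (latJ β Λ) (latH β Λ (fun _ => b)) s) else 0)) =
    Real.exp (β * ∑ u ∈ Λ \ (Λ \ Q), ∑ v ∈ (nbrs u).filter (· ∉ Λ \ Q),
      (if v ∈ Λ then 1 / 2 else 1) * (sg (if u ∈ Λ then a u else b) *
        sg (if v ∈ Λ then a v else b))) *
    ∑ τ : ↥(Λ \ Q) → Bool, F (glue (Λ \ Q) τ (fun u => if u ∈ Λ then a u else b)) *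
      wt β (Λ \ Q) (glue (Λ \ Q) τ (fun u => if u ∈ Λ then a u else b)) := by
  classical
  have hl : (∑ s : Λ → Bool, F (glue Λ s (fun _ => b)) *
      (if ∀ u : Λ, (u : Site d) ∈ Q → s u = a u then
        Real.exp (gE (latJ β Λ) (latH β Λ (fun _ => b)) s) else 0)) =
      ∑ s ∈ (Finset.univ : Finset (Λ → Bool)).filter
        (fun s => ∀ u : Λ, (u : Site d) ∈ Q → s u = a u),
        F (glue Λ s (fun _ => b)) * Real.exp (gE (latJ β Λ) (latH β Λ (fun _ => b)) s) := by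
    rw [Finset.sum_filter]
    refine Finset.sum_congr rfl fun s _ => ?_
    split_ifs <;> simp
  rw [hl, Finset.mul_sum]
  symm
  have hcfg : ∀ τ : ↥(Λ \ Q) → Bool,
      glue Λ (fun u : Λ => glue (Λ \ Q) τ (fun u => if u ∈ Λ then a u else b) u) (fun _ => b) =
      glue (Λ \ Q) τ (fun u => if u ∈ Λ then a u else b) := by
    intro τ
    funext u
    by_cases hu : u ∈ Λ
    · simp [glue, hu]
    · simp [glue, hu]
  refine Finset.sum_bij' (fun τ _ => fun u : Λ =>
      glue (Λ \ Q) τ (fun u => if u ∈ Λ then a u else b) u)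
    (fun s _ => fun u : ↥(Λ \ Q) => s ⟨u, (Finset.mem_sdiff.1 u.2).1⟩) ?_ ?_ ?_ ?_ ?_
  · intro τ _
    rw [Finset.mem_filter]
    refine ⟨Finset.mem_univ _, fun u hu => ?_⟩
    have h1 : (u : Site d) ∉ Λ \ Q := fun h => (Finset.mem_sdiff.1 h).2 hu
    simp only [glue]
    rw [dif_neg h1, if_pos u.2]
  · intro s _
    exact Finset.mem_univ _
  · intro τ _
    funext u
    simp only [glue]
    rw [dif_pos u.2]
  · intro s hs'
    rw [Finset.mem_filter] at hs'
    funext u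
    by_cases hu : (u : Site d) ∈ Q
    · have h1 : (u : Site d) ∉ Λ \ Q := fun h => (Finset.mem_sdiff.1 h).2 hu
      simp only [glue]
      rw [dif_neg h1, if_pos u.2]
      exact (hs'.2 u hu).symm
    · have h1 : (u : Site d) ∈ Λ \ Q := Finset.mem_sdiff.2 ⟨u.2, hu⟩
      simp only [glue]
      rw [dif_pos h1]
  · intro τ _
    rw [gE_eq, hcfg τ, enrg_decomp hsymm (Λ \ Q) Λ Finset.sdiff_subset, mul_add, Real.exp_add]
    unfold wt
    have hD : (∑ u ∈ Λ \ (Λ \ Q), ∑ v ∈ (nbrs u).filter (· ∉ Λ \ Q),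
        (if v ∈ Λ then 1 / 2 else 1) * (sg (if u ∈ Λ then a u else b) *
        sg (if v ∈ Λ then a v else b)) : ℝ) =
        ∑ u ∈ Λ \ (Λ \ Q), ∑ v ∈ (nbrs u).filter (· ∉ Λ \ Q),
        (if v ∈ Λ then 1 / 2 else 1) *
        (sg (glue (Λ \ Q) τ (fun u => if u ∈ Λ then a u else b) u) *
        sg (glue (Λ \ Q) τ (fun u => if u ∈ Λ then a u else b) v)) := by
      refine Finset.sum_congr rfl fun u hu => Finset.sum_congr rfl fun v hv => ?_
      rw [Finset.mem_filter] at hv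
      rw [Finset.mem_sdiff] at hu
      simp only [glue]
      rw [dif_neg hv.2, dif_neg hu.2]
    rw [hD]
    ring

/-- The limit of the Gibbs averages as the strength of the field tends to infinity. -/
theorem lim_gav (hsymm : ∀ u v : Site d, v ∈ nbrs u ↔ u ∈ nbrs v)
    (β : ℝ) (Λ Q : Finset (Site d)) (a : Cfg d) (b : Bool) (v : Site d) (hv : v ∈ Λ) :
    Tendsto (fun H : ℝ => gav (latJ β Λ) (hs Λ Q a H + latH β Λ (fun _ => b))
      (fun σ => sg (σ ⟨v, hv⟩))) atTop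
      (𝓝 (ev β (Λ \ Q) (fun u => if u ∈ Λ then a u else b) (fun σ => sg (σ v)))) := by
  classical
  set K := latH β Λ (fun _ => b) with hK
  set N : ℝ := ∑ u : Λ, if (u : Site d) ∈ Q then 1 else 0 with hN
  have h1 : ∀ H : ℝ, gav (latJ β Λ) (hs Λ Q a H + K) (fun σ => sg (σ ⟨v, hv⟩)) =
      (∑ s : Λ → Bool, sg (s ⟨v, hv⟩) *
        (Real.exp (gE (latJ β Λ) (hs Λ Q a H + K) s) * Real.exp (-(H * N)))) /
      ∑ s : Λ → Bool,
        (Real.exp (gE (latJ β Λ) (hs Λ Q a H + K) s) * Real.exp (-(H * N))) := by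
    intro H
    unfold gav
    rw [← Finset.sum_mul]
    simp_rw [← mul_assoc]
    rw [← Finset.sum_mul, mul_div_mul_right _ _ (Real.exp_pos _).ne']
  simp_rw [h1]
  have hnum : Tendsto (fun H : ℝ => ∑ s : Λ → Bool, sg (s ⟨v, hv⟩) *
        (Real.exp (gE (latJ β Λ) (hs Λ Q a H + K) s) * Real.exp (-(H * N)))) atTop
      (𝓝 (∑ s : Λ → Bool, sg (s ⟨v, hv⟩) *
        (if ∀ u : Λ, (u : Site d) ∈ Q → s u = a u then Real.exp (gE (latJ β Λ) K s) else 0))) :=
    tendsto_finsetSum _ fun s _ => (lim_weight β Λ Q a K s).const_mul _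
  have hden : Tendsto (fun H : ℝ => ∑ s : Λ → Bool,
        (Real.exp (gE (latJ β Λ) (hs Λ Q a H + K) s) * Real.exp (-(H * N)))) atTop
      (𝓝 (∑ s : Λ → Bool,
        (if ∀ u : Λ, (u : Site d) ∈ Q → s u = a u then Real.exp (gE (latJ β Λ) K s) else 0))) :=
    tendsto_finsetSum _ fun s _ => lim_weight β Λ Q a K s
  have hn := sum_pinned hsymm β Λ Q a b (fun σ => sg (σ v))
  have hd := sum_pinned hsymm β Λ Q a b (fun _ => 1)
  have hn' : (∑ s : Λ → Bool, sg (s ⟨v, hv⟩) *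
        (if ∀ u : Λ, (u : Site d) ∈ Q → s u = a u then Real.exp (gE (latJ β Λ) K s) else 0)) =
      ∑ s : Λ → Bool, (fun σ : Cfg d => sg (σ v)) (glue Λ s (fun _ => b)) *
      (if ∀ u : Λ, (u : Site d) ∈ Q → s u = a u then
        Real.exp (gE (latJ β Λ) (latH β Λ (fun _ => b)) s) else 0) := by
    refine Finset.sum_congr rfl fun s _ => ?_
    simp [glue, hv, hK]
  simp only [one_mul] at hd
  have hpos : 0 < ∑ τ : ↥(Λ \ Q) → Bool,
      wt β (Λ \ Q) (glue (Λ \ Q) τ (fun u => if u ∈ Λ then a u else b)) :=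
    Finset.sum_pos (fun τ _ => Real.exp_pos _) Finset.univ_nonempty
  have hlim := hnum.div hden (by rw [hd]; exact (mul_pos (Real.exp_pos _) hpos).ne')
  rw [hn', hn, hd, mul_div_mul_left _ _ (Real.exp_pos _).ne'] at hlim
  exact hlim

/-- Packet SSM. -/
theorem ssm (hB : S_BASIC) (hE : S_EVG) (h1 : S_E1) : S_SSM := by
  intro d β Λ Q a v hβ hv _
  have hsymm : ∀ u v : Site d, v ∈ nbrs u ↔ u ∈ nbrs v := (hB d).2.1
  have hneg : latH β Λ (fun _ => false) = - latH β Λ (allT : Cfg d) := by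
    funext u
    simp [latH, allT, sg]
  have hpos : ∀ u, 0 ≤ latH β Λ (allT : Cfg d) u := by
    intro u
    simp only [latH, allT, sg, if_true]
    exact mul_nonneg hβ (Finset.sum_nonneg fun _ _ => zero_le_one)
  have hJ : ∀ u w, 0 ≤ latJ β Λ u w := by
    intro u w
    unfold latJ
    split_ifs
    · positivity
    · exact le_refl _
  have hmag : mag β Λ v = gav (latJ β Λ) (latH β Λ allT) (fun σ => sg (σ ⟨v, hv⟩)) := by
    unfold mag
    rw [hE]
    simp [glue, hv]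
  rw [hmag]
  have l1 := lim_gav hsymm β Λ Q a true v hv
  have l2 := lim_gav hsymm β Λ Q a false v hv
  refine le_of_tendsto (l1.sub l2) (Eventually.of_forall fun H => ?_)
  rw [hneg, ← sub_eq_add_neg]
  exact h1 Λ (latJ β Λ) (hs Λ Q a H) (latH β Λ allT) ⟨v, hv⟩ hJ hpos

end Pool.Agent.Helper32.Isg
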